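import Pool.Agent.LPC.Stmts

/-! # Squad LPC (MP_37fa12_co), row ASY: the bound for the density of the points -/

set_option autoImplicit false

noncomputable section

open MeasureTheory Filter Topology
open scoped RealInnerProductSpace

namespace Pool.Agent.LPC.H73

variable {n : ℕ}

/-- the integral of `|f|` outside of a large ball is small -/
lemma asy_tail (f : V n → ℝ) (hf : Integrable f) (δ : ℝ) (hδ : 0 < δ) :
    ∃ r : ℝ, 0 < r ∧ ∫ u in (Metric.ball (0 : V n) r)ᶜ, |f u| < δ := by
  have hfa : Integrable (fun u => |f u|) := hf.abs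
  have h : Tendsto (fun k : ℕ => ∫ u in Metric.ball (0 : V n) (k : ℝ), |f u|) atTop
      (𝓝 (∫ u in ⋃ k : ℕ, Metric.ball (0 : V n) (k : ℝ), |f u|)) := by
    apply tendsto_setIntegral_of_monotone
    · intro k; exact Metric.isOpen_ball.measurableSet
    · intro a b hab
      exact Metric.ball_subset_ball (by exact_mod_cast hab)
    · exact hfa.integrableOn
  rw [Metric.iUnion_ball_nat, Measure.restrict_univ] at h
  have h1 : ∀ᶠ k : ℕ in atTop, (∫ u, |f u|) - δ < ∫ u in Metric.ball (0 : V n) (k : ℝ), |f u| := by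
    apply h.eventually_const_lt
    linarith
  obtain ⟨k, hk1, hk2⟩ := (h1.and (eventually_ge_atTop 1)).exists
  refine ⟨k, by exact_mod_cast hk2, ?_⟩
  have h2 := integral_add_compl (μ := volume) (f := fun u => |f u|)
    (s := Metric.ball (0 : V n) (k : ℝ)) Metric.isOpen_ball.measurableSet hfa
  linarith

lemma asy_key (f : V n → ℝ) (hf : Integrable f) (r : ℝ) (x : V n) (S : Set (V n))
    (hS : MeasurableSet S) (hx : ∀ u, u ∉ S → r ≤ ‖x - u‖) :
    |(∫ u in S, f (x - u)) - ∫ u, f u| ≤ ∫ u in (Metric.ball (0 : V n) r)ᶜ, |f u| := by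
  have hfx : Integrable (fun u => f (x - u)) := hf.comp_sub_left x
  have h1 := integral_add_compl (μ := volume) (f := fun u => f (x - u)) hS hfx
  have h2 : ∫ u, f (x - u) = ∫ u, f u := integral_sub_left_eq_self f volume x
  have h3 : (∫ u in S, f (x - u)) - ∫ u, f u = -∫ u in Sᶜ, f (x - u) := by linarith
  rw [h3, abs_neg]
  have hm : MeasurableSet (Metric.ball (0 : V n) r)ᶜ := Metric.isOpen_ball.measurableSet.compl
  have hI : Integrable ((Metric.ball (0 : V n) r)ᶜ.indicator (fun u => |f u|)) :=
    hf.abs.indicator hm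
  calc |∫ u in Sᶜ, f (x - u)| ≤ ∫ u in Sᶜ, |f (x - u)| := by
        simpa [Real.norm_eq_abs] using norm_integral_le_integral_norm (μ := volume.restrict Sᶜ)
          (f := fun u => f (x - u))
    _ = ∫ u, Sᶜ.indicator (fun u => |f (x - u)|) u := (integral_indicator hS.compl).symm
    _ ≤ ∫ u, (Metric.ball (0 : V n) r)ᶜ.indicator (fun u => |f u|) (x - u) := by
        apply integral_mono (hfx.abs.indicator hS.compl) (hI.comp_sub_left x)
        intro u
        simp only
        by_cases hu : u ∈ S
        · rw [Set.indicator_of_notMem (by simpa using hu)]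
          exact Set.indicator_nonneg (fun _ _ => abs_nonneg _) _
        · have h4 : x - u ∈ (Metric.ball (0 : V n) r)ᶜ := by
            simpa using hx u hu
          rw [Set.indicator_of_mem (by simpa using hu), Set.indicator_of_mem h4]
    _ = ∫ u, (Metric.ball (0 : V n) r)ᶜ.indicator (fun u => |f u|) u :=
        integral_sub_left_eq_self _ volume x
    _ = _ := integral_indicator hm

lemma asy_all (f : V n → ℝ) (hf : Integrable f) (x : V n) (S : Set (V n))
    : ∫ u in S, f (x - u) ≤ ∫ u, |f u| := by
  have hfx : Integrable (fun u => f (x - u)) := hf.comp_sub_left x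
  calc ∫ u in S, f (x - u) ≤ ∫ u in S, |f (x - u)| := by
        apply integral_mono hfx.integrableOn hfx.abs.integrableOn
        intro u; exact le_abs_self _
    _ ≤ ∫ u, |f (x - u)| := setIntegral_le_integral hfx.abs (ae_of_all _ fun _ => abs_nonneg _)
    _ = ∫ u, |f u| := integral_sub_left_eq_self (fun u => |f u|) volume x

/-- the double integral -/
lemma asy_dbl (f : V n → ℝ) (hf : Integrable f) (hI : 0 < ∫ x, f x) (r R δ : ℝ) (hr : 0 < r)
    (hδ : 0 < δ) (hrδ : ∫ u in (Metric.ball (0 : V n) r)ᶜ, |f u| < δ) :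
    ∫ u in Metric.ball (0 : V n) (R + r), ∫ v in Metric.ball (0 : V n) (R + r), f (u - v) ≤
      (∫ x, |f x|) * vb n (R + r) + ((∫ x, f x) + δ - ∫ x, |f x|) * vb n R := by
  set I := ∫ x, f x with hIdef
  set J := ∫ x, |f x| with hJdef
  have hIJ : I ≤ J := integral_mono hf hf.abs fun u => le_abs_self _
  have hVV : vb n R ≤ vb n (R + r) :=
    ENNReal.toReal_mono measure_ball_lt_top.ne
      (measure_mono (Metric.ball_subset_ball (by linarith)))
  have hV0 : 0 ≤ vb n R := ENNReal.toReal_nonneg
  have hrhs : 0 ≤ J * vb n (R + r) + (I + δ - J) * vb n R := by nlinarith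
  by_cases hint : IntegrableOn (fun u => ∫ v in Metric.ball (0 : V n) (R + r), f (u - v))
      (Metric.ball (0 : V n) (R + r))
  swap
  · rw [integral_undef hint]; exact hrhs
  have hmR : MeasurableSet (Metric.ball (0 : V n) R) := Metric.isOpen_ball.measurableSet
  have hmRr : MeasurableSet (Metric.ball (0 : V n) (R + r)) := Metric.isOpen_ball.measurableSet
  have hfin : volume (Metric.ball (0 : V n) (R + r)) ≠ ⊤ := measure_ball_lt_top.ne
  have hc : ∀ c : ℝ, IntegrableOn (fun _ : V n => c) (Metric.ball (0 : V n) (R + r)) := fun c =>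
    integrableOn_const hfin
  have hgi : IntegrableOn ((Metric.ball (0 : V n) R).indicator fun _ : V n => I + δ - J)
      (Metric.ball (0 : V n) (R + r)) := (hc _).indicator hmR
  calc ∫ u in Metric.ball (0 : V n) (R + r), ∫ v in Metric.ball (0 : V n) (R + r), f (u - v) ≤
      ∫ u in Metric.ball (0 : V n) (R + r),
        (J + (Metric.ball (0 : V n) R).indicator (fun _ => I + δ - J) u) := by
        apply integral_mono hint ((hc J).add hgi)
        intro u
        simp only [Pi.add_apply]
        by_cases hu : u ∈ Metric.ball (0 : V n) R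
        · rw [Set.indicator_of_mem hu]
          have h1 := asy_key f hf r u (Metric.ball (0 : V n) (R + r)) hmRr (by
            intro v hv
            have hu' : ‖u‖ < R := by simpa using hu
            have hv' : R + r ≤ ‖v‖ := by simpa using hv
            have h2 : ‖v‖ ≤ ‖u‖ + ‖u - v‖ := by
              have := norm_sub_le u (u - v)
              simpa using this
            linarith)
          have h3 := le_abs_self ((∫ v in Metric.ball (0 : V n) (R + r), f (u - v)) - ∫ u, f u)
          linarith
        · rw [Set.indicator_of_notMem hu, add_zero]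
          exact asy_all f hf u _
    _ = J * vb n (R + r) + (I + δ - J) * vb n R := by
        rw [integral_add (hc J) hgi, setIntegral_const, setIntegral_indicator hmR,
          Set.inter_eq_self_of_subset_right (Metric.ball_subset_ball (by linarith)),
          setIntegral_const]
        simp only [smul_eq_mul, vb, Measure.real]
        ring

lemma asy_vb (n : ℕ) (R : ℝ) (hR : 0 < R) : vb n R = R ^ n * vb n 1 := by
  unfold vb
  rw [Measure.addHaar_ball_of_pos volume _ hR, ENNReal.toReal_mul, ENNReal.toReal_ofReal (by positivity)]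
  simp

lemma asy_vb_pos (n : ℕ) (R : ℝ) (hR : 0 < R) : 0 < vb n R :=
  ENNReal.toReal_pos (Metric.measure_ball_pos volume _ hR).ne' measure_ball_lt_top.ne

lemma asy_lim (n : ℕ) (r : ℝ) (hr : 0 < r) :
    Tendsto (fun R : ℝ => vb n R / vb n (R + r)) atTop (𝓝 1) := by
  have h1 : Tendsto (fun R : ℝ => (R / (R + r)) ^ n) atTop (𝓝 (1 ^ n)) := by
    apply Tendsto.pow
    have h2 : Tendsto (fun R : ℝ => 1 - r / (R + r)) atTop (𝓝 (1 - 0)) := by
      apply Tendsto.sub tendsto_const_nhds
      apply Tendsto.div_atTop tendsto_const_nhds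
      exact tendsto_atTop_add_const_right _ _ tendsto_id
    rw [sub_zero] at h2
    apply h2.congr'
    filter_upwards [eventually_gt_atTop 0] with R hR
    have : R + r ≠ 0 := by positivity
    field_simp
    ring
  rw [one_pow] at h1
  apply h1.congr'
  filter_upwards [eventually_gt_atTop 0] with R hR
  have h3 : 0 < R + r := by positivity
  have h4 := asy_vb_pos n 1 one_pos
  rw [asy_vb n R hR, asy_vb n (R + r) h3, div_pow]
  field_simp

theorem asy (h0 : Fin0Stmt) : AsyStmt := by
  intro n f A s L hn hs hL hf hQ hI hA hX ε hε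
  set I := ∫ x, f x with hIdef
  set J := ∫ x, |f x| with hJdef
  set κ := A / I with hκ
  have hκ0 : 0 ≤ κ := div_nonneg hA hI.le
  have hκI : κ * I = A := div_mul_cancel₀ _ hI.ne'
  -- choice of δ
  obtain ⟨δ, hδ, hδ2⟩ : ∃ δ : ℝ, 0 < δ ∧ A < (κ + ε) * (I - 3 * δ) := by
    have hp : 0 < κ + ε := by linarith
    refine ⟨ε * I / (6 * (κ + ε)), by positivity, ?_⟩
    have h1 : (κ + ε) * (I - 3 * (ε * I / (6 * (κ + ε)))) = κ * I + ε * I - ε * I / 2 := by
      field_simp
      ring
    rw [h1, hκI]
    have : 0 < ε * I := by positivity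
    linarith
  obtain ⟨r, hr, hrδ⟩ := asy_tail f hf δ hδ
  -- the limit
  have hlim : Tendsto (fun R : ℝ => (κ + ε) * (vb n R / vb n (R + r)) *
      (2 * (I - δ) - (vb n R / vb n (R + r)) * (I + δ) - (1 - vb n R / vb n (R + r)) * J))
      atTop (𝓝 ((κ + ε) * 1 * (2 * (I - δ) - 1 * (I + δ) - (1 - 1) * J))) := by
    have h := asy_lim n r hr
    exact (h.const_mul _).mul (((h.mul_const _).const_sub _).sub ((h.const_sub _).mul_const _))
  have hev : ∀ᶠ R : ℝ in atTop, A < (κ + ε) * (vb n R / vb n (R + r)) *
      (2 * (I - δ) - (vb n R / vb n (R + r)) * (I + δ) - (1 - vb n R / vb n (R + r)) * J) := by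
    apply hlim.eventually_const_lt
    have : (κ + ε) * 1 * (2 * (I - δ) - 1 * (I + δ) - (1 - 1) * J) = (κ + ε) * (I - 3 * δ) := by
      ring
    rw [this]; exact hδ2
  filter_upwards [hev, eventually_gt_atTop 0] with R hR hR0
  have hVpos : 0 < vb n R := asy_vb_pos n R hR0
  have hV'pos : 0 < vb n (R + r) := asy_vb_pos n (R + r) (by linarith)
  -- the finite set
  have hfin := h0 n s L hs hL R
  set X := hfin.toFinset with hXdef
  have hXL : ∀ x ∈ X, x ∈ L := by
    intro x hx
    have := (Set.Finite.mem_toFinset hfin).1 hx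
    exact this.1
  have hXR : ∀ x ∈ X, ‖x‖ < R := by
    intro x hx
    have := (Set.Finite.mem_toFinset hfin).1 hx
    simpa using this.2
  have hcard : (cnt L R : ℝ) = X.card := by
    unfold cnt
    rw [hXdef, ← Set.ncard_eq_toFinset_card _ hfin]
    rfl
  rw [hcard]
  rcases Nat.eq_zero_or_pos X.card with hN0 | hNpos
  · rw [hN0]
    simp only [Nat.cast_zero]
    positivity
  have hN : (0 : ℝ) < X.card := by exact_mod_cast hNpos
  have hq := hQ X (R + r) (X.card / vb n (R + r))
  have hc0 : 0 < X.card / vb n (R + r) := by positivity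
  set c := X.card / vb n (R + r) with hc
  have hcV : c * vb n (R + r) = X.card := div_mul_cancel₀ _ hV'pos.ne'
  have h1 : ∑ x ∈ X, ∑ y ∈ X, f (x - y) ≤ X.card * A := by
    calc ∑ x ∈ X, ∑ y ∈ X, f (x - y) ≤ ∑ x ∈ X, A := Finset.sum_le_sum fun x hx => hX X hXL x hx
      _ = X.card * A := by rw [Finset.sum_const, nsmul_eq_mul]
  have h2 : X.card * (I - δ) ≤ ∑ x ∈ X, ∫ u in Metric.ball (0 : V n) (R + r), f (x - u) := by
    calc X.card * (I - δ) = ∑ x ∈ X, (I - δ) := by rw [Finset.sum_const, nsmul_eq_mul]
      _ ≤ _ := by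
        apply Finset.sum_le_sum
        intro x hx
        have h3 := asy_key f hf r x (Metric.ball (0 : V n) (R + r))
          Metric.isOpen_ball.measurableSet (by
            intro v hv
            have hu' : ‖x‖ < R := hXR x hx
            have hv' : R + r ≤ ‖v‖ := by simpa using hv
            have h2 : ‖v‖ ≤ ‖x‖ + ‖x - v‖ := by
              have := norm_sub_le x (x - v)
              simpa using this
            linarith)
        have h4 := neg_abs_le ((∫ v in Metric.ball (0 : V n) (R + r), f (x - v)) - ∫ u, f u)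
        linarith
  have h3 := asy_dbl f hf hI r R δ hr hδ hrδ
  rw [← hIdef, ← hJdef] at h3
  -- combine
  set v := vb n R / vb n (R + r) with hv
  have hvV : v * vb n (R + r) = vb n R := div_mul_cancel₀ _ hV'pos.ne'
  have hvpos : 0 < v := by positivity
  have h4 : 0 ≤ X.card * A - 2 * c * (X.card * (I - δ)) +
      c ^ 2 * (J * vb n (R + r) + (I + δ - J) * vb n R) := by
    have h5 : 2 * c * (X.card * (I - δ)) ≤
        2 * c * ∑ x ∈ X, ∫ u in Metric.ball (0 : V n) (R + r), f (x - u) :=
      mul_le_mul_of_nonneg_left h2 (by positivity)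
    have h6 := mul_le_mul_of_nonneg_left h3 (sq_nonneg c)
    linarith
  have h5 : X.card * A - 2 * c * (X.card * (I - δ)) +
      c ^ 2 * (J * vb n (R + r) + (I + δ - J) * vb n R) =
      X.card * (A - c * (2 * (I - δ) - v * (I + δ) - (1 - v) * J)) := by
    rw [← hvV, ← hcV]
    ring
  rw [h5] at h4
  have h6 : 0 ≤ A - c * (2 * (I - δ) - v * (I + δ) - (1 - v) * J) := by
    by_contra h
    push Not at h
    have := mul_neg_of_pos_of_neg hN h
    linarith
  set B := 2 * (I - δ) - v * (I + δ) - (1 - v) * J with hB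
  have hBpos : 0 < B := by
    by_contra h
    push Not at h
    have h7 : (κ + ε) * v * B ≤ 0 := mul_nonpos_of_nonneg_of_nonpos (by positivity) h
    linarith
  have h7 : c < (κ + ε) * v := by
    have h8 : c * B < (κ + ε) * v * B := by linarith
    exact lt_of_mul_lt_mul_right h8 hBpos.le
  calc (X.card : ℝ) = c * vb n (R + r) := hcV.symm
    _ ≤ (κ + ε) * v * vb n (R + r) := mul_le_mul_of_nonneg_right h7.le hV'pos.le
    _ = (κ + ε) * vb n R := by rw [mul_assoc, hvV]

end Pool.Agent.LPC.H73
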