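import Pool.Agent.LPC.Stmts

/-! # Squad LPC (MP_37fa12_co), row IND: n + 1 vectors -/

set_option autoImplicit false

noncomputable section

open scoped RealInnerProductSpace

namespace Pool.Agent.LPC.H73

theorem ind : IndStmt := by
  rintro n hn ⟨v, hv0, hv⟩
  have hdep : ¬ LinearIndependent ℝ v := by
    intro h
    have := h.fintype_card_le_finrank
    simp at this
  rw [Fintype.not_linearIndependent_iff] at hdep
  obtain ⟨a, ha, i0, hi0⟩ := hdep
  obtain ⟨k, _, hk⟩ := Finset.exists_max_image Finset.univ (fun i => |a i| * ‖v i‖)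
    ⟨i0, Finset.mem_univ _⟩
  have hkpos : 0 < |a k| * ‖v k‖ :=
    lt_of_lt_of_le (mul_pos (abs_pos.2 hi0) (norm_pos_iff.2 (hv0 i0))) (hk i0 (Finset.mem_univ _))
  have hvk : 0 < ‖v k‖ := norm_pos_iff.2 (hv0 k)
  have hn0 : (0 : ℝ) < n := by exact_mod_cast hn
  have h1 : ∑ i, a i * ⟪v i, v k⟫ = 0 := by
    have h := congrArg (fun w => ⟪w, v k⟫) ha
    simpa [sum_inner, inner_smul_left] using h
  rw [← Finset.add_sum_erase Finset.univ _ (Finset.mem_univ k)] at h1
  have h2 : |a k| * ‖v k‖ ^ 2 ≤ ∑ i ∈ Finset.univ.erase k, |a i| * |⟪v i, v k⟫| := by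
    have h3 : a k * ‖v k‖ ^ 2 = -∑ i ∈ Finset.univ.erase k, a i * ⟪v i, v k⟫ := by
      rw [← real_inner_self_eq_norm_sq]; linarith
    calc |a k| * ‖v k‖ ^ 2 = |a k * ‖v k‖ ^ 2| := by
          rw [abs_mul, abs_of_nonneg (sq_nonneg ‖v k‖)]
      _ = |∑ i ∈ Finset.univ.erase k, a i * ⟪v i, v k⟫| := by rw [h3, abs_neg]
      _ ≤ ∑ i ∈ Finset.univ.erase k, |a i * ⟪v i, v k⟫| := Finset.abs_sum_le_sum_abs _ _
      _ = _ := Finset.sum_congr rfl fun i _ => abs_mul _ _
  have hne : (Finset.univ.erase k).Nonempty := by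
    rw [← Finset.card_pos, Finset.card_erase_of_mem (Finset.mem_univ k)]
    simp
    omega
  have h4 : ∑ i ∈ Finset.univ.erase k, |a i| * |⟪v i, v k⟫| <
      ∑ i ∈ (Finset.univ.erase k : Finset (Fin (n + 1))), |a k| * ‖v k‖ ^ 2 / n := by
    apply Finset.sum_lt_sum_of_nonempty hne
    intro i hi
    have hik : i ≠ k := (Finset.mem_erase.1 hi).1
    rcases eq_or_ne (a i) 0 with h0 | h0
    · rw [h0]
      simp only [abs_zero, zero_mul]
      have : 0 < |a k| * ‖v k‖ * ‖v k‖ := mul_pos hkpos hvk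
      have h5 : |a k| * ‖v k‖ ^ 2 = |a k| * ‖v k‖ * ‖v k‖ := by ring
      rw [h5]
      positivity
    · have hai : 0 < |a i| := abs_pos.2 h0
      calc |a i| * |⟪v i, v k⟫| < |a i| * (‖v i‖ * ‖v k‖ / n) :=
            mul_lt_mul_of_pos_left (hv i k hik) hai
        _ = (|a i| * ‖v i‖) * ‖v k‖ / n := by ring
        _ ≤ (|a k| * ‖v k‖) * ‖v k‖ / n := by
            have := hk i (Finset.mem_univ _)
            gcongr
        _ = |a k| * ‖v k‖ ^ 2 / n := by ring
  have h6 : ∑ i ∈ (Finset.univ.erase k : Finset (Fin (n + 1))), |a k| * ‖v k‖ ^ 2 / n =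
      |a k| * ‖v k‖ ^ 2 := by
    rw [Finset.sum_const, Finset.card_erase_of_mem (Finset.mem_univ k)]
    simp only [Finset.card_univ, Fintype.card_fin, Nat.add_sub_cancel, nsmul_eq_mul]
    field_simp
  linarith

end Pool.Agent.LPC.H73
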